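import Pool.Agent.H76.BW.Id
import Pool.Agent.H43.TS.Wd
import Pool.Agent.H43.TP.Ev
import Pool.Agent.H31.EQ.Fin

/-!
# BW: `Bx` is well distributed in almost all blocks (MP_967f73_nt, project PX), from `eq5` (fifth moment) as a hypothesis `EQ5`
-/

set_option autoImplicit false

namespace Pool.Agent.H76.BW

open Finset
open Pool.Agent.H43.MP (blk Hn idx Rn)
open Pool.Agent.H43.TS (badQ badQ_wd)
open Pool.Agent.H53.MID (VKp)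
open Pool.Agent.H76.TP (yN zz rg nu PY)
open Pool.Agent.H91.TQ (om)
open Pool.Agent.H31.EQ (Gs gam WDx sqz)
open Pool.Agent.H43.PX (Bx LevX)

/-- the statement of `eq5` -/
def EQ5 : Prop := ∀ (e1 e : ℝ), 0 < e1 → 0 < e → ∀ (A B : ℕ), ∃ A0 : ℕ, ∀ A1 : ℕ, A0 ≤ A1 →
    ∃ N0 : ℕ, ∀ N : ℕ, N0 ≤ N → ∀ (H y J0 J1 : ℕ) (b : ℕ → ℕ → ℝ), (N : ℝ) ^ (1 / 11 + e) ≤ H → (H : ℝ) ≤ (N : ℝ) ^ (1 / 3 : ℝ) →
      (N : ℝ) ^ e1 ≤ (2 ^ J0 * y : ℕ) → ((2 ^ J1 * y : ℕ) : ℝ) ^ 10 * (N : ℝ) ^ e ≤ N * (H : ℝ) ^ 9 → (∀ j k, |b j k| ≤ 1) →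
      (∀ j k, b j k ≠ 0 → ∀ q : ℕ, q.Prime → q ∣ k → Real.log N ^ B < q) →
      WDx N H A B (Gs b y J0 J1) (gam (Gs b y J0 J1) ⌊(N : ℝ) / Real.log N ^ A1⌋₊)

/-- the long average: sizes -/
private theorem Bw_H1 (A1 : ℕ) : ∃ N0 : ℕ, ∀ N : ℕ, N0 ≤ N →
    (N : ℝ) ^ (3 / 4 : ℝ) ≤ (⌊(N : ℝ) / Real.log N ^ A1⌋₊ : ℕ) ∧ ((⌊(N : ℝ) / Real.log N ^ A1⌋₊ : ℕ) : ℝ) ≤ N := by
  obtain ⟨N1, hN1⟩ := Pool.Agent.H76.GB.log_pow_le (1 / 4) 2 (by norm_num) (by norm_num) A1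
  obtain ⟨N2, hN2⟩ := Pool.Agent.H80.LV.log_ge 1
  refine ⟨max N1 (max N2 1), fun N hN => ?_⟩
  simp only [max_le_iff] at hN
  obtain ⟨g1, g2, g3⟩ := hN
  have h7 := hN1 N g1
  have hL1 := hN2 N g2
  have hNpos : (0 : ℝ) < N := by exact_mod_cast (by omega : 0 < N)
  have hN1' : (1 : ℝ) ≤ N := by exact_mod_cast g3
  set L := Real.log N with hLdef
  have hLp : 1 ≤ L ^ A1 := one_le_pow₀ hL1
  constructor
  · have t1 := Nat.lt_floor_add_one ((N : ℝ) / L ^ A1)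
    have t2 : (N : ℝ) = (N : ℝ) ^ (3 / 4 : ℝ) * (N : ℝ) ^ (1 / 4 : ℝ) := by
      rw [← Real.rpow_add hNpos]
      norm_num
    have t3 : 2 * (N : ℝ) ^ (3 / 4 : ℝ) ≤ (N : ℝ) / L ^ A1 := by
      rw [le_div_iff₀ (by positivity)]
      calc 2 * (N : ℝ) ^ (3 / 4 : ℝ) * L ^ A1 = (N : ℝ) ^ (3 / 4 : ℝ) * (2 * L ^ A1) := by ring
        _ ≤ (N : ℝ) ^ (3 / 4 : ℝ) * (N : ℝ) ^ (1 / 4 : ℝ) := mul_le_mul_of_nonneg_left h7 (by positivity)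
        _ = N := t2.symm
    have t4 : 1 ≤ (N : ℝ) ^ (3 / 4 : ℝ) := Real.one_le_rpow hN1' (by norm_num)
    linarith
  · exact (Nat.floor_le (by positivity)).trans (div_le_self hNpos.le hLp)

/-- `Bx` in almost all windows -/
theorem bx_wdx (h5 : EQ5) (θ : ℝ) (h1 : 1 / 10 ≤ θ) (h2 : θ ≤ 1 / 4) (e1 : ℝ) (he1 : 0 < e1) (he2 : e1 ≤ 1 / 1000) (A B : ℕ) :
    ∃ A0 : ℕ, ∀ A1 : ℕ, A0 ≤ A1 → ∃ N0 : ℕ, ∀ N : ℕ, N0 ≤ N → ∀ J J1 : ℕ, LevX N (yN e1 N) J J1 →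
      WDx N (Hn θ N) A B (Bx (yN e1 N) J J1) (gam (Bx (yN e1 N) J J1) ⌊(N : ℝ) / Real.log N ^ A1⌋₊) := by
  obtain ⟨A0, hA0⟩ := h5 (e1 / 2) (1 / 2000) (by linarith) (by norm_num) (A + 2) B
  refine ⟨A0, fun A1 hA1 => ?_⟩
  obtain ⟨N1, hN1⟩ := hA0 A1 hA1
  obtain ⟨N2, hN2⟩ := bw_sizes e1 he1 he2 B
  obtain ⟨N3, hN3⟩ := wdx_sqE (e1 / 2) (by linarith) (by linarith) A B
  obtain ⟨N4, hN4⟩ := Bw_H1 A1
  obtain ⟨N5, hN5⟩ := Pool.Agent.H76.GB.log_pow_le (1 / 2000) 512 (by norm_num) (by norm_num) 0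
  obtain ⟨N6, hN6⟩ := Pool.Agent.H43.TP.ev_large θ 1 (by linarith) (by linarith) one_pos le_rfl B
  refine ⟨max (max (max N1 N2) (max N3 N4)) (max (max N5 N6) 1), fun N hN J J1 hL => ?_⟩
  simp only [max_le_iff] at hN
  obtain ⟨⟨⟨g1, g2⟩, g3, g4⟩, ⟨g5, g6⟩, g7⟩ := hN
  obtain ⟨hy1, hyB, hL16, hsz⟩ := hN2 N g2
  obtain ⟨b1, b2⟩ := hN4 N g4
  have c1 := hN5 N g5
  rw [pow_zero, mul_one] at c1
  obtain ⟨-, f2, f3, -⟩ := hN6 N g6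
  have hNpos : (0 : ℝ) < N := by exact_mod_cast (by omega : 0 < N)
  have hNone : (1 : ℝ) ≤ N := by exact_mod_cast g7
  have hHle : (Hn θ N : ℝ) ≤ (N : ℝ) ^ θ := Nat.floor_le (by positivity)
  have hHge : (N : ℝ) ^ (1 / 10 : ℝ) / 2 ≤ Hn θ N := by
    have t1 : (N : ℝ) ^ (1 / 10 : ℝ) ≤ (N : ℝ) ^ θ := Real.rpow_le_rpow_of_exponent_le hNone h1
    linarith
  have hz1 : ((2 ^ J * yN e1 N : ℕ) : ℝ) ≤ (N : ℝ) ^ (1899 / 10000 : ℝ) := hL.2.2.1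
  set y := yN e1 N with hy
  set b : ℕ → ℕ → ℝ := fun _ => bB y J J1 with hb
  have hLpos : 0 < Real.log N := by linarith
  have hW : WDx N (Hn θ N) (A + 2) B (Gs b y 0 J) (gam (Gs b y 0 J) ⌊(N : ℝ) / Real.log N ^ A1⌋₊) := by
    refine hN1 N g1 (Hn θ N) y 0 J b ?_ ?_ ?_ ?_ (fun j k => bB_abs y J J1 k) ?_
    · have t1 : (N : ℝ) ^ (1 / 10 : ℝ) = (N : ℝ) ^ (1 / 11 + 1 / 2000 : ℝ) * (N : ℝ) ^ (1 / 10 - 1 / 11 - 1 / 2000 : ℝ) := by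
        rw [← Real.rpow_add hNpos]
        norm_num
      have t2 : (512 : ℝ) ≤ (N : ℝ) ^ (1 / 10 - 1 / 11 - 1 / 2000 : ℝ) :=
        c1.trans (Real.rpow_le_rpow_of_exponent_le hNone (by norm_num))
      have t3 : 0 < (N : ℝ) ^ (1 / 11 + 1 / 2000 : ℝ) := Real.rpow_pos_of_pos hNpos _
      have t4 : (N : ℝ) ^ (1 / 11 + 1 / 2000 : ℝ) * 512 ≤ (N : ℝ) ^ (1 / 10 : ℝ) := by
        rw [t1]
        exact mul_le_mul_of_nonneg_left t2 t3.le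
      linarith
    · exact hHle.trans (Real.rpow_le_rpow_of_exponent_le hNone (by linarith))
    · rw [pow_zero, one_mul]
      exact hy1
    · have t1 : ((2 ^ J * y : ℕ) : ℝ) ^ 10 ≤ (N : ℝ) ^ (1899 / 1000 : ℝ) := by
        calc ((2 ^ J * y : ℕ) : ℝ) ^ 10 ≤ ((N : ℝ) ^ (1899 / 10000 : ℝ)) ^ 10 := pow_le_pow_left₀ (Nat.cast_nonneg _) hz1 10
          _ = (N : ℝ) ^ (1899 / 1000 : ℝ) := by
            rw [← Real.rpow_natCast, ← Real.rpow_mul hNpos.le]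
            norm_num
      have t2 : (N : ℝ) ^ (9 / 10 : ℝ) / 512 ≤ (Hn θ N : ℝ) ^ 9 := by
        calc (N : ℝ) ^ (9 / 10 : ℝ) / 512 = ((N : ℝ) ^ (1 / 10 : ℝ) / 2) ^ 9 := by
              rw [div_pow, ← Real.rpow_natCast, ← Real.rpow_mul hNpos.le]
              norm_num
          _ ≤ (Hn θ N : ℝ) ^ 9 := pow_le_pow_left₀ (by positivity) hHge 9
      calc ((2 ^ J * y : ℕ) : ℝ) ^ 10 * (N : ℝ) ^ (1 / 2000 : ℝ)
          ≤ (N : ℝ) ^ (1899 / 1000 : ℝ) * (N : ℝ) ^ (1 / 2000 : ℝ) := mul_le_mul_of_nonneg_right t1 (by positivity)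
        _ = (N : ℝ) * (N : ℝ) ^ (9 / 10 : ℝ) * (N : ℝ) ^ (-(1 / 2000) : ℝ) := by
            conv_rhs => rw [← Real.rpow_one (N : ℝ)]
            rw [← Real.rpow_mul hNpos.le, ← Real.rpow_mul hNpos.le, ← Real.rpow_add hNpos, ← Real.rpow_add hNpos, ← Real.rpow_add hNpos]
            norm_num
        _ ≤ (N : ℝ) * (N : ℝ) ^ (9 / 10 : ℝ) * (1 / 512) := by
            refine mul_le_mul_of_nonneg_left ?_ (by positivity)
            rw [Real.rpow_neg hNpos.le, ← one_div]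
            exact one_div_le_one_div_of_le (by norm_num) c1
        _ = N * ((N : ℝ) ^ (9 / 10 : ℝ) / 512) := by ring
        _ ≤ N * (Hn θ N : ℝ) ^ 9 := mul_le_mul_of_nonneg_left t2 hNpos.le
    · intro j k hbk q hq hqk
      have t1 : rg y k ≠ 0 := by
        intro h
        apply hbk
        show bB y J J1 k = 0
        unfold bB
        rw [h, zero_mul]
      have t2 : ∀ p : ℕ, p.Prime → p ∣ k → y < p := by
        by_contra hcon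
        apply t1
        unfold rg
        rw [if_neg hcon]
      have t3 : (y : ℝ) < q := by exact_mod_cast t2 q hq hqk
      linarith
  have hW4 := wdx_smul 4 (A := A + 1) (by linarith) hLpos hW
  refine hN3 N g3 (Hn θ N) _ (2 ^ 0 * y) (fun n => 4 * Gs b y 0 J n) (Bx y J J1) ?_ ?_ b1 b2 ?_ ?_ ?_ hW4
  · rw [pow_zero, one_mul]
    exact hy1
  · exact hHle.trans (Real.rpow_le_rpow_of_exponent_le hNone (by linarith))
  · intro n hn hn2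
    obtain ⟨s1, s2⟩ := hsz J J1 hL n hn hn2
    have t1 := gs_bound y J J1 n hn
    show |4 * Gs b y 0 J n| ≤ Real.log N
    rw [abs_mul, abs_of_pos (by norm_num : (0 : ℝ) < 4)]
    linarith
  · intro n hn hn2
    obtain ⟨s1, s2⟩ := hsz J J1 hL n hn hn2
    exact (bx_bound y J J1 n s1).trans (by linarith)
  · intro n hn hn2 hs
    exact gs_bx y J J1 n hn (hsz J J1 hL n hn hn2).1 hs

theorem bx_badQ_of (h5 : EQ5) (θ : ℝ) (h1 : 1 / 10 ≤ θ) (h2 : θ ≤ 1 / 4) (e1 : ℝ) (he1 : 0 < e1) (he2 : e1 ≤ 1 / 1000) (A B : ℕ) :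
    ∃ A0 : ℕ, ∀ A1 : ℕ, A0 ≤ A1 → ∃ N0 : ℕ, ∀ N : ℕ, N0 ≤ N → ∀ J J1 : ℕ, LevX N (yN e1 N) J J1 →
      ((badQ N (Hn θ N) A B (Bx (yN e1 N) J J1)
        (fun i => gam (Bx (yN e1 N) J J1) ⌊(N : ℝ) / Real.log N ^ A1⌋₊ (i * Hn θ N))).card : ℝ) ≤
        (N : ℝ) / (Hn θ N) / Real.log N ^ A := by
  obtain ⟨A0, hA0⟩ := bx_wdx h5 θ h1 h2 e1 he1 he2 (4 * A + 5 * B + 2) B
  refine ⟨A0, fun A1 hA1 => ?_⟩
  obtain ⟨N1, hN1⟩ := hA0 A1 hA1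
  obtain ⟨N2, hN2⟩ := bw_sizes e1 he1 he2 B
  obtain ⟨N3, hN3⟩ := Pool.Agent.H43.TP.ev_large θ 1 (by linarith) (by linarith) one_pos le_rfl B
  obtain ⟨N4, hN4⟩ := Bw_H1 A1
  obtain ⟨N5, hN5⟩ := Pool.Agent.H76.GB.log_pow_le (2 / 3) 256 (by norm_num) (by norm_num) (A1 + A + B)
  obtain ⟨N6, hN6⟩ := Pool.Agent.H76.GB.log_pow_le (2 / 3) 32 (by norm_num) (by norm_num) 0
  refine ⟨max (max (max N1 N2) (max N3 N4)) (max (max N5 N6) 640), fun N hN J J1 hL => ?_⟩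
  simp only [max_le_iff] at hN
  obtain ⟨⟨⟨g1, g2⟩, g3, g4⟩, ⟨g5, g6⟩, g7⟩ := hN
  obtain ⟨hy1, hyB, hL16, hsz⟩ := hN2 N g2
  obtain ⟨f1, f2, f3, -⟩ := hN3 N g3
  obtain ⟨b1, b2⟩ := hN4 N g4
  have k5 := hN5 N g5
  have k6 := hN6 N g6
  rw [pow_zero, mul_one] at k6
  rw [one_mul] at f1
  have hNpos : (0 : ℝ) < N := by exact_mod_cast (by omega : 0 < N)
  have hNone : (1 : ℝ) ≤ N := by exact_mod_cast (by omega : 1 ≤ N)
  have hW := hN1 N g1 J J1 hL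
  set y := yN e1 N with hy
  set L := Real.log N with hLdef
  set H := Hn θ N with hHdef
  set G := Bx y J J1 with hG
  have hL0 : 0 < L := by linarith
  have hL1 : 1 ≤ L := by linarith
  have hLp : ∀ n : ℕ, 1 ≤ L ^ n := fun n => one_le_pow₀ hL1
  have hgs : ∀ n : ℕ, 1 ≤ n → n ≤ 16 * N → |G n| ≤ 4 := fun n hn hn2 => bx_bound y J J1 n (hsz J J1 hL n hn hn2).1
  have hadd : ∀ a b : ℝ, (N : ℝ) ^ (a + b) = (N : ℝ) ^ a * (N : ℝ) ^ b := fun a b => Real.rpow_add hNpos a b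
  have hH3 : (H : ℝ) ≤ (N : ℝ) ^ (1 / 3 : ℝ) := by
    have t0 : (H : ℝ) ≤ (N : ℝ) ^ θ := Nat.floor_le (by positivity)
    exact t0.trans (Real.rpow_le_rpow_of_exponent_le hNone (by linarith))
  have hN3' : (N : ℝ) = (N : ℝ) ^ (1 / 3 : ℝ) * (N : ℝ) ^ (2 / 3 : ℝ) := by
    rw [← hadd]
    norm_num
  have hHN : 16 * (H + 20) ≤ N := by
    have t1 : (32 : ℝ) * H ≤ N := by
      calc (32 : ℝ) * H = H * 32 := by ring
        _ ≤ (N : ℝ) ^ (1 / 3 : ℝ) * (N : ℝ) ^ (2 / 3 : ℝ) := mul_le_mul hH3 k6 (by norm_num) (by positivity)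
        _ = N := hN3'.symm
    have t2 : 32 * H ≤ N := by exact_mod_cast t1
    omega
  have hbig : 256 * (H : ℝ) * L ^ (A1 + A + B) ≤ N := by
    calc 256 * (H : ℝ) * L ^ (A1 + A + B) = H * (256 * L ^ (A1 + A + B)) := by ring
      _ ≤ (N : ℝ) ^ (1 / 3 : ℝ) * (N : ℝ) ^ (2 / 3 : ℝ) := mul_le_mul hH3 k5 (by positivity) (by positivity)
      _ = N := hN3'.symm
  set H1 := ⌊(N : ℝ) / L ^ A1⌋₊ with hH1
  have hH1R : (0 : ℝ) < H1 := lt_of_lt_of_le (by positivity) b1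
  have hH1pos : 1 ≤ H1 := by exact_mod_cast hH1R
  have hH1leN : H1 ≤ N := by exact_mod_cast b2
  have hH1ge : (N : ℝ) / (2 * L ^ A1) ≤ H1 := by
    have t1 := Nat.lt_floor_add_one ((N : ℝ) / L ^ A1)
    have t2 : (1 : ℝ) ≤ (H1 : ℝ) := by exact_mod_cast hH1pos
    have t3 : (N : ℝ) / (2 * L ^ A1) = (N : ℝ) / L ^ A1 / 2 := by
      rw [mul_comm 2, ← div_div]
    rw [t3]
    have t4 : (N : ℝ) / L ^ A1 < H1 + 1 := t1
    linarith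
  have hlip : ∀ x x' : ℕ, x ≤ x' + 2 * H → x' ≤ x + 2 * H → N ≤ 8 * x → x ≤ 8 * N → N ≤ 8 * x' → x' ≤ 8 * N →
      |gam G H1 x - gam G H1 x'| ≤ 1 / (8 * L ^ (A + B)) := by
    intro x x' a1 a2 a3 a4 a5 a6
    have t1 := Pool.Agent.H31.EQ.gam_lip G 4 H1 x x' hH1pos (by norm_num) (fun n hn1 hn2 => hgs n hn1 (by
      have : max x x' ≤ 8 * N := max_le a4 a6
      omega))
    refine t1.trans ?_
    have t2 : |(x : ℝ) - x'| ≤ 2 * H := by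
      rw [abs_le]
      have b1 : (x : ℝ) ≤ x' + 2 * H := by exact_mod_cast a1
      have b2 : (x' : ℝ) ≤ x + 2 * H := by exact_mod_cast a2
      constructor <;> linarith
    rw [div_le_div_iff₀ hH1R (by positivity), one_mul]
    have t3 : 2 * 4 * |(x : ℝ) - x'| * (8 * L ^ (A + B)) ≤ 2 * 4 * (2 * H) * (8 * L ^ (A + B)) :=
      mul_le_mul_of_nonneg_right (by linarith) (by positivity)
    refine t3.trans (le_trans ?_ hH1ge)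
    rw [le_div_iff₀ (by positivity)]
    have hp : L ^ A1 * L ^ (A + B) = L ^ (A1 + A + B) := by
      rw [← pow_add]
      congr 1
      omega
    calc 2 * 4 * (2 * (H : ℝ)) * (8 * L ^ (A + B)) * (2 * L ^ A1) = 256 * H * (L ^ A1 * L ^ (A + B)) := by ring
      _ = 256 * H * L ^ (A1 + A + B) := by rw [hp]
      _ ≤ N := hbig
  have hY : ∀ n : ℕ, 1 ≤ n → n ≤ 16 * N → |G n| ≤ L ^ 1 := by
    intro n hn1 hn2
    rw [pow_one]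
    exact (hgs n hn1 hn2).trans (by linarith)
  exact badQ_wd (A := A) (B := B) (C := 1) (η := gam G H1) f1 f3 hHN hY hlip (by omega) hW

end Pool.Agent.H76.BW
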