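import Pool.Agent.H31.EQ.Sparse
import Pool.Agent.H80.LV.Defs

/-!
# BW Sp: changing a function on the multiples of squares of primes `> N^δ` (as `H31/EQ/Sparse.lean`)

`s(x, H) = #{n ∈ (x, x+H] : p² ∣ n for a prime p > z}`.  `|∑ Y - ∑ Y'| ≤ 20 s(x, H)`, `|gam Y - gam Y'| ≤ 20 s(x, H1)/H1`.
`∑_{x ≤ 8N} s(x, H) ≤ H #{n ≤ 16N : ..} ≤ H · 16 N ∑_{p > z} 1/p² ≤ 32 H N/z`, `s ≤ H`, so `∑ s(x,H)² ≤ 32 H² N/z`; `s(x, H1) ≤ ∑_{z < p ≤ 4√N} (H1/p² + 1) ≤ 2 H1/z + 4 √N`.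
-/

set_option autoImplicit false

namespace Pool.Agent.H76.BW

open Finset
open Pool.Agent.H31.EQ (WDx gam sqz)

open Classical in
/-- the number of the multiples of large squares in a window -/
private noncomputable def Sp_s (z x h : ℕ) : ℕ := ((Ioc x (x + h)).filter (fun n => sqz z n)).card

private theorem Sp_mult (m x h : ℕ) (hm : 0 < m) :
    (((Ioc x (x + h)).filter (fun n => m ∣ n)).card : ℝ) ≤ (h : ℝ) / m + 1 := by
  have h1 : (Ioc x (x + h)).filter (fun n => m ∣ n) ⊆ (Ioc (x / m) ((x + h) / m)).image (fun t => m * t) := by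
    intro n hn
    rw [mem_filter, mem_Ioc] at hn
    obtain ⟨⟨h2, h3⟩, t, rfl⟩ := hn
    rw [mem_image]
    refine ⟨t, ?_, rfl⟩
    rw [mem_Ioc]
    constructor
    · rw [Nat.div_lt_iff_lt_mul hm]
      linarith [mul_comm m t]
    · rw [Nat.le_div_iff_mul_le hm]
      linarith [mul_comm m t]
  have h2 : ((Ioc x (x + h)).filter (fun n => m ∣ n)).card ≤ (x + h) / m - x / m := by
    refine (card_le_card h1).trans (card_image_le.trans ?_)
    rw [Nat.card_Ioc]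
  have h3 : (x + h) / m < x / m + h / m + 2 := by
    rw [Nat.div_lt_iff_lt_mul hm]
    have a1 := Nat.lt_mul_div_succ x hm
    have a2 := Nat.lt_mul_div_succ h hm
    calc x + h < m * (x / m + 1) + m * (h / m + 1) := by
          have b1 : x < m * (x / m + 1) := a1
          have b2 : h < m * (h / m + 1) := a2
          omega
      _ = (x / m + h / m + 2) * m := by ring
  have h4 : ((Ioc x (x + h)).filter (fun n => m ∣ n)).card ≤ h / m + 1 := by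
    generalize (x + h) / m = u1 at h2 h3
    generalize x / m = u2 at h2 h3
    generalize h / m = u3 at h2 h3 ⊢
    omega
  have h5 : (((Ioc x (x + h)).filter (fun n => m ∣ n)).card : ℝ) ≤ ((h / m + 1 : ℕ) : ℝ) := by exact_mod_cast h4
  refine h5.trans ?_
  push_cast
  have := @Nat.cast_div_le ℝ _ _ _ h m
  linarith

private theorem Sp_inv (z M : ℕ) (hz : 0 < z) : ∑ q ∈ Ioc z M, 1 / (q : ℝ) ^ 2 ≤ 1 / (z : ℝ) := by
  rcases le_or_gt z M with h | h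
  · have h1 := sum_Ioc_inv_sq_le_sub (α := ℝ) hz.ne' h
    have h2 : (0 : ℝ) ≤ (M : ℝ)⁻¹ := by positivity
    simp only [one_div]
    linarith
  · rw [Ioc_eq_empty (by omega), sum_empty]
    positivity

/-- the windows -/
private theorem Sp_win (z x h Q : ℕ) (hz : 0 < z) (hQ : x + h < (Q + 1) ^ 2) :
    (Sp_s z x h : ℝ) ≤ (h : ℝ) / z + Q := by
  classical
  have h1 : (Ioc x (x + h)).filter (fun n => sqz z n) ⊆
      (Ioc z Q).biUnion (fun q => (Ioc x (x + h)).filter (fun n => q ^ 2 ∣ n)) := by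
    intro n hn
    simp only [mem_filter, mem_Ioc] at hn
    obtain ⟨⟨h2, h3⟩, p, hp, hzp, hpn⟩ := hn
    simp only [mem_biUnion, mem_filter, mem_Ioc]
    refine ⟨p, ⟨hzp, ?_⟩, ⟨h2, h3⟩, hpn⟩
    have h4 : p ^ 2 ≤ n := Nat.le_of_dvd (by omega) hpn
    have h5 : p ^ 2 < (Q + 1) ^ 2 := by omega
    have h6 := lt_of_pow_lt_pow_left₀ 2 (by omega) h5
    omega
  have h2 : (Sp_s z x h : ℝ) ≤ ∑ q ∈ Ioc z Q, ((((Ioc x (x + h)).filter (fun n => q ^ 2 ∣ n)).card : ℕ) : ℝ) := by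
    unfold Sp_s
    have h3 := (card_le_card h1).trans card_biUnion_le
    exact_mod_cast h3
  refine h2.trans ?_
  have h3 : ∀ q ∈ Ioc z Q, ((((Ioc x (x + h)).filter (fun n => q ^ 2 ∣ n)).card : ℕ) : ℝ) ≤ h * (1 / (q : ℝ) ^ 2) + 1 := by
    intro q hq
    rw [mem_Ioc] at hq
    have hq0 : 0 < q ^ 2 := pow_pos (by omega) 2
    refine (Sp_mult (q ^ 2) x h hq0).trans (le_of_eq ?_)
    push_cast
    ring
  refine (sum_le_sum h3).trans ?_
  rw [sum_add_distrib, ← mul_sum, sum_const, Nat.card_Ioc, nsmul_eq_mul, mul_one]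
  have h4 := mul_le_mul_of_nonneg_left (Sp_inv z Q hz) (Nat.cast_nonneg (α := ℝ) h)
  have h5 : ((Q - z : ℕ) : ℝ) ≤ Q := by exact_mod_cast Nat.sub_le _ _
  have h6 : (h : ℝ) * (1 / z) = h / z := by ring
  linarith

/-- the total number -/
private theorem Sp_tot (z M : ℕ) (hz : 0 < z) : (Sp_s z 0 M : ℝ) ≤ (M : ℝ) / z := by
  classical
  have h1 : (Ioc 0 (0 + M)).filter (fun n => sqz z n) ⊆
      (Ioc z M).biUnion (fun q => (Ioc 0 M).filter (fun n => q ^ 2 ∣ n)) := by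
    intro n hn
    simp only [mem_filter, mem_Ioc] at hn
    obtain ⟨⟨h2, h3⟩, p, hp, hzp, hpn⟩ := hn
    simp only [mem_biUnion, mem_filter, mem_Ioc]
    refine ⟨p, ⟨hzp, ?_⟩, ⟨h2, by omega⟩, hpn⟩
    have h4 : p ^ 2 ≤ n := Nat.le_of_dvd (by omega) hpn
    nlinarith [hp.two_le]
  have h2 : (Sp_s z 0 M : ℝ) ≤ ∑ q ∈ Ioc z M, ((((Ioc 0 M).filter (fun n => q ^ 2 ∣ n)).card : ℕ) : ℝ) := by
    unfold Sp_s
    have h3 := (card_le_card h1).trans card_biUnion_le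
    exact_mod_cast h3
  refine h2.trans ?_
  have h3 : ∀ q ∈ Ioc z M, ((((Ioc 0 M).filter (fun n => q ^ 2 ∣ n)).card : ℕ) : ℝ) ≤ M * (1 / (q : ℝ) ^ 2) := by
    intro q _
    rw [Nat.Ioc_filter_dvd_card_eq_div]
    refine (@Nat.cast_div_le ℝ _ _ _ M (q ^ 2)).trans (le_of_eq ?_)
    push_cast
    ring
  refine (sum_le_sum h3).trans ?_
  rw [← mul_sum]
  have h4 := mul_le_mul_of_nonneg_left (Sp_inv z M hz) (Nat.cast_nonneg (α := ℝ) M)
  have h6 : (M : ℝ) * (1 / z) = M / z := by ring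
  linarith

private theorem Sp_sle (z x h : ℕ) : Sp_s z x h ≤ h := by
  classical
  unfold Sp_s
  refine (card_filter_le _ _).trans ?_
  rw [Nat.card_Ioc]
  omega

/-- the second moment of the number of multiples of large squares -/
private theorem Sp_sum (z H M : ℕ) (S : Finset ℕ) (hz : 0 < z) (hS : ∀ x ∈ S, x + H ≤ M) :
    ∑ x ∈ S, (Sp_s z x H : ℝ) ^ 2 ≤ (H : ℝ) ^ 2 * (M / z) := by
  classical
  have h1 : ∑ x ∈ S, Sp_s z x H ≤ H * Sp_s z 0 M := by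
    have e1 : ∀ x ∈ S, Sp_s z x H = ∑ n ∈ (Ioc 0 M).filter (fun n => sqz z n), if x < n ∧ n ≤ x + H then 1 else 0 := by
      intro x hx
      unfold Sp_s
      rw [← card_filter]
      congr 1
      ext n
      simp only [mem_filter, mem_Ioc]
      have := hS x hx
      constructor
      · rintro ⟨⟨h2, h3⟩, h4⟩
        exact ⟨⟨⟨by omega, by omega⟩, h4⟩, h2, h3⟩
      · rintro ⟨⟨_, h4⟩, h2, h3⟩
        exact ⟨⟨h2, h3⟩, h4⟩
    rw [sum_congr rfl e1, sum_comm]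
    have e2 : ∀ n ∈ (Ioc 0 M).filter (fun n => sqz z n), ∑ x ∈ S, (if x < n ∧ n ≤ x + H then 1 else 0) ≤ H := by
      intro n _
      rw [← card_filter]
      have e3 : S.filter (fun x => x < n ∧ n ≤ x + H) ⊆ Ico (n - H) n := by
        intro x hx
        rw [mem_filter] at hx
        rw [mem_Ico]
        omega
      refine (card_le_card e3).trans ?_
      rw [Nat.card_Ico]
      omega
    refine (sum_le_sum e2).trans (le_of_eq ?_)
    rw [sum_const, smul_eq_mul, mul_comm]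
    unfold Sp_s
    rw [Nat.zero_add]
  have h2 : ∀ x ∈ S, (Sp_s z x H : ℝ) ^ 2 ≤ H * Sp_s z x H := by
    intro x _
    have : (Sp_s z x H : ℝ) ≤ H := by exact_mod_cast Sp_sle z x H
    rw [sq]
    exact mul_le_mul_of_nonneg_right this (Nat.cast_nonneg _)
  refine (sum_le_sum h2).trans ?_
  rw [← mul_sum]
  have h3 : (∑ x ∈ S, (Sp_s z x H : ℝ)) ≤ H * Sp_s z 0 M := by exact_mod_cast h1
  have h4 := Sp_tot z M hz
  calc (H : ℝ) * ∑ x ∈ S, (Sp_s z x H : ℝ) ≤ H * (H * Sp_s z 0 M) :=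
        mul_le_mul_of_nonneg_left h3 (Nat.cast_nonneg _)
    _ = H ^ 2 * Sp_s z 0 M := by ring
    _ ≤ (H : ℝ) ^ 2 * (M / z) := mul_le_mul_of_nonneg_left h4 (by positivity)

/-- the difference of the sums over a window -/
private theorem Sp_dif (N z x h : ℕ) (Y Y' : ℕ → ℝ) (M : ℝ) (hM : 0 ≤ M) (p : ℕ → Prop) [DecidablePred p] (hx : x + h ≤ 16 * N)
    (hY : ∀ n, 1 ≤ n → n ≤ 16 * N → |Y n| ≤ M) (hY' : ∀ n, 1 ≤ n → n ≤ 16 * N → |Y' n| ≤ M)
    (hE : ∀ n, 1 ≤ n → n ≤ 16 * N → ¬ sqz z n → Y n = Y' n) :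
    |∑ n ∈ (Ioc x (x + h)).filter p, Y n - ∑ n ∈ (Ioc x (x + h)).filter p, Y' n| ≤ 2 * M * Sp_s z x h := by
  classical
  rw [← sum_sub_distrib]
  have h1 : |∑ n ∈ (Ioc x (x + h)).filter p, (Y n - Y' n)| ≤ ∑ n ∈ (Ioc x (x + h)).filter p, (if sqz z n then (2 * M : ℝ) else 0) := by
    refine (abs_sum_le_sum_abs _ _).trans (sum_le_sum fun n hn => ?_)
    rw [mem_filter, mem_Ioc] at hn
    have a1 := hY n (by omega) (by omega)
    have a2 := hY' n (by omega) (by omega)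
    have a3 := hE n (by omega) (by omega)
    split_ifs with hs
    · have := abs_sub (Y n) (Y' n)
      linarith
    · rw [a3 hs, sub_self, abs_zero]
  refine h1.trans ?_
  have h2 : ∑ n ∈ (Ioc x (x + h)).filter p, (if sqz z n then (2 * M : ℝ) else 0) ≤
      ∑ n ∈ Ioc x (x + h), (if sqz z n then (2 * M : ℝ) else 0) := by
    apply sum_le_sum_of_subset_of_nonneg (filter_subset _ _)
    intro n _ _
    split_ifs
    · positivity
    · exact le_rfl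
  refine h2.trans (le_of_eq ?_)
  rw [← sum_filter, sum_const, nsmul_eq_mul, mul_comm]
  unfold Sp_s
  rfl

private theorem Sp_gam (N z x h : ℕ) (Y Y' : ℕ → ℝ) (M : ℝ) (hM : 0 ≤ M) (hx : x + h ≤ 16 * N)
    (hY : ∀ n, 1 ≤ n → n ≤ 16 * N → |Y n| ≤ M) (hY' : ∀ n, 1 ≤ n → n ≤ 16 * N → |Y' n| ≤ M)
    (hE : ∀ n, 1 ≤ n → n ≤ 16 * N → ¬ sqz z n → Y n = Y' n) :
    |gam Y h x - gam Y' h x| ≤ 2 * M * Sp_s z x h / h := by
  have h1 := Sp_dif N z x h Y Y' M hM (fun _ => True) hx hY hY' hE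
  simp only [filter_true] at h1
  unfold gam
  rw [← sub_div, abs_div, abs_of_nonneg (Nat.cast_nonneg (α := ℝ) h)]
  exact div_le_div_of_nonneg_right h1 (Nat.cast_nonneg _)

/-- changing a function on the multiples of the squares of primes `> z`, `z ≥ N^δ`, any `δ > 0` -/
theorem wdx_sqE (δ : ℝ) (hδ : 0 < δ) (hδ5 : δ ≤ 1 / 5) (A B : ℕ) : ∃ N0 : ℕ, ∀ N : ℕ, N0 ≤ N → ∀ (H H1 z : ℕ) (Y Y' : ℕ → ℝ),
    (N : ℝ) ^ δ ≤ z → (H : ℝ) ≤ (N : ℝ) ^ (1 / 2 : ℝ) →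
    (N : ℝ) ^ (3 / 4 : ℝ) ≤ H1 → (H1 : ℝ) ≤ N → (∀ n, 1 ≤ n → n ≤ 16 * N → |Y n| ≤ Real.log N) →
    (∀ n, 1 ≤ n → n ≤ 16 * N → |Y' n| ≤ Real.log N) →
    (∀ n, 1 ≤ n → n ≤ 16 * N → ¬ sqz z n → Y n = Y' n) → WDx N H (A + 1) B Y (gam Y H1) → WDx N H A B Y' (gam Y' H1) := by
  obtain ⟨N1, hN1⟩ := Pool.Agent.H80.LV.log_pow_le δ 7488 hδ (by norm_num) (A + 2)
  obtain ⟨N2, hN2⟩ := Pool.Agent.H80.LV.log_ge 4
  obtain ⟨N3, hN3⟩ := Pool.Agent.H80.LV.log_pow_le (1 / 20) 2 (by norm_num) (by norm_num) 0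
  refine ⟨max (max (max N1 N2) 16) N3, ?_⟩
  intro N hN H H1 z Y Y' hz hH hH1 hH1N hY hY' hE hWD d c hd hdB
  simp only [max_le_iff] at hN
  obtain ⟨⟨⟨g1, g2⟩, g3⟩, g4⟩ := hN
  have hL1 := hN1 N g1
  have hL4 := hN2 N g2
  have h10' := hN3 N g4
  rw [pow_zero, mul_one] at h10'
  have hNr : (16 : ℝ) ≤ N := by exact_mod_cast g3
  have hN0 : (0 : ℝ) < N := by linarith
  have hN1r : (1 : ℝ) ≤ N := by linarith
  set L := Real.log N with hL_def
  have hL0 : 0 < L := by linarith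
  have hz1 : (1 : ℝ) ≤ z := (Real.one_le_rpow hN1r hδ.le).trans hz
  have hz0 : 0 < z := by
    have : (0 : ℝ) < z := by linarith
    exact_mod_cast this
  have hHN : H ≤ N := by
    have h1 : (N : ℝ) ^ (1 / 2 : ℝ) ≤ (N : ℝ) ^ (1 : ℝ) := Real.rpow_le_rpow_of_exponent_le hN1r (by norm_num)
    rw [Real.rpow_one] at h1
    exact_mod_cast hH.trans h1
  have hH1N' : H1 ≤ N := by exact_mod_cast hH1N
  have hH10 : (0 : ℝ) < H1 := lt_of_lt_of_le (Real.rpow_pos_of_pos hN0 _) hH1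
  -- the window count for the long windows
  have hQ : ∀ x, x ≤ 8 * N → (Sp_s z x H1 : ℝ) / H1 ≤ 5 * (N : ℝ) ^ (-δ) := by
    intro x hx
    have h1 := Sp_win z x H1 (4 * (Nat.sqrt N + 1)) hz0 (by
      have h2 := Nat.lt_succ_sqrt N
      have h3 : x + H1 < 16 * (Nat.sqrt N + 1) * (Nat.sqrt N + 1) := by
        have h4 : N < (Nat.sqrt N + 1) * (Nat.sqrt N + 1) := h2
        nlinarith
      nlinarith)
    have h2 : (Nat.sqrt N : ℝ) ≤ (N : ℝ) ^ (1 / 2 : ℝ) := by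
      rw [← Real.sqrt_eq_rpow]
      exact Real.nat_sqrt_le_real_sqrt
    have h3 : (1 : ℝ) ≤ (N : ℝ) ^ (1 / 2 : ℝ) := Real.one_le_rpow hN1r (by norm_num)
    have h4 : (((4 * (Nat.sqrt N + 1) : ℕ)) : ℝ) ≤ 8 * (N : ℝ) ^ (1 / 2 : ℝ) := by
      push_cast
      linarith
    have h5 : (Sp_s z x H1 : ℝ) / H1 ≤ 1 / z + 8 * (N : ℝ) ^ (1 / 2 : ℝ) / H1 := by
      rw [div_le_iff₀ hH10]
      have h6 : (1 / (z : ℝ) + 8 * (N : ℝ) ^ (1 / 2 : ℝ) / H1) * H1 = H1 / z + 8 * (N : ℝ) ^ (1 / 2 : ℝ) := by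
        field_simp
      rw [h6]
      linarith
    have h7 : 1 / (z : ℝ) ≤ (N : ℝ) ^ (-δ) := by
      rw [Real.rpow_neg hN0.le, ← one_div]
      exact one_div_le_one_div_of_le (Real.rpow_pos_of_pos hN0 _) hz
    have h8 : 8 * (N : ℝ) ^ (1 / 2 : ℝ) / H1 ≤ 4 * (N : ℝ) ^ (-δ) := by
      rw [div_le_iff₀ hH10]
      have h9 : (N : ℝ) ^ (-δ) * (N : ℝ) ^ (3 / 4 : ℝ) = (N : ℝ) ^ (1 / 4 - δ) * (N : ℝ) ^ (1 / 2 : ℝ) := by
        rw [← Real.rpow_add hN0, ← Real.rpow_add hN0]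
        congr 1
        ring
      have h10 : (2 : ℝ) ≤ (N : ℝ) ^ (1 / 4 - δ) :=
        h10'.trans (Real.rpow_le_rpow_of_exponent_le hN1r (by linarith))
      have h15 : 0 < (N : ℝ) ^ (-δ) := Real.rpow_pos_of_pos hN0 _
      have h16 : (N : ℝ) ^ (-δ) * (N : ℝ) ^ (3 / 4 : ℝ) ≤ (N : ℝ) ^ (-δ) * H1 :=
        mul_le_mul_of_nonneg_left hH1 h15.le
      nlinarith
    linarith
  have hNN : 0 < (N : ℝ) ^ (-δ) := Real.rpow_pos_of_pos hN0 _
  have hNN1 : (N : ℝ) ^ (-δ) ≤ 1 := Real.rpow_le_one_of_one_le_of_nonpos hN1r (by linarith)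
  -- pointwise
  have hpt : ∀ x ∈ Icc (N / 8) (8 * N), ((∑ n ∈ (Ioc x (x + H)).filter (fun n => n % d = c % d), Y' n)
      - (if Nat.Coprime c d then (H : ℝ) * gam Y' H1 x / d.totient else 0)) ^ 2 ≤
      2 * ((∑ n ∈ (Ioc x (x + H)).filter (fun n => n % d = c % d), Y n)
      - (if Nat.Coprime c d then (H : ℝ) * gam Y H1 x / d.totient else 0)) ^ 2
      + 16 * L ^ 2 * (Sp_s z x H : ℝ) ^ 2 + 16 * L ^ 2 * (H : ℝ) ^ 2 * (5 * (N : ℝ) ^ (-δ)) ^ 2 := by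
    intro x hx
    rw [mem_Icc] at hx
    have a1 := Sp_dif N z x H Y Y' L hL0.le (fun n => n % d = c % d) (by omega) hY hY' hE
    have a2 := Sp_gam N z x H1 Y Y' L hL0.le (by omega) hY hY' hE
    have a3 := hQ x hx.2
    have hφ : (1 : ℝ) ≤ d.totient := by exact_mod_cast Nat.totient_pos.2 (by omega)
    have a4 : |(if Nat.Coprime c d then (H : ℝ) * gam Y H1 x / d.totient else 0) -
        (if Nat.Coprime c d then (H : ℝ) * gam Y' H1 x / d.totient else 0)| ≤ 2 * L * (H : ℝ) * (5 * (N : ℝ) ^ (-δ)) := by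
      split_ifs with hc
      · have e1 : (H : ℝ) * gam Y H1 x / d.totient - H * gam Y' H1 x / d.totient = H * (gam Y H1 x - gam Y' H1 x) / d.totient := by
          ring
        rw [e1, abs_div, abs_mul, abs_of_nonneg (Nat.cast_nonneg (α := ℝ) H), abs_of_nonneg (Nat.cast_nonneg (α := ℝ) d.totient)]
        have e2 : (H : ℝ) * |gam Y H1 x - gam Y' H1 x| / d.totient ≤ H * |gam Y H1 x - gam Y' H1 x| := by
          apply div_le_self (by positivity) hφ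
        refine e2.trans ?_
        have e3 : |gam Y H1 x - gam Y' H1 x| ≤ 2 * L * (5 * (N : ℝ) ^ (-δ)) := by
          refine a2.trans ?_
          rw [mul_div_assoc]
          exact mul_le_mul_of_nonneg_left a3 (by positivity)
        have e4 := mul_le_mul_of_nonneg_left e3 (Nat.cast_nonneg (α := ℝ) H)
        linarith
      · rw [sub_self, abs_zero]
        positivity
    set E := (∑ n ∈ (Ioc x (x + H)).filter (fun n => n % d = c % d), Y n)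
      - (if Nat.Coprime c d then (H : ℝ) * gam Y H1 x / d.totient else 0) with hEdef
    set u := ∑ n ∈ (Ioc x (x + H)).filter (fun n => n % d = c % d), Y n - ∑ n ∈ (Ioc x (x + H)).filter (fun n => n % d = c % d), Y' n with hu
    set v := (if Nat.Coprime c d then (H : ℝ) * gam Y H1 x / d.totient else 0) -
        (if Nat.Coprime c d then (H : ℝ) * gam Y' H1 x / d.totient else 0) with hv
    have e5 : (∑ n ∈ (Ioc x (x + H)).filter (fun n => n % d = c % d), Y' n)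
      - (if Nat.Coprime c d then (H : ℝ) * gam Y' H1 x / d.totient else 0) = E - u + v := by
      rw [hEdef, hu, hv]
      ring
    rw [e5]
    have e6 : u ^ 2 ≤ (2 * L * (Sp_s z x H : ℝ)) ^ 2 := by
      rw [← sq_abs u]
      exact pow_le_pow_left₀ (abs_nonneg _) a1 2
    have e7 : v ^ 2 ≤ (2 * L * (H : ℝ) * (5 * (N : ℝ) ^ (-δ))) ^ 2 := by
      rw [← sq_abs v]
      exact pow_le_pow_left₀ (abs_nonneg _) a4 2
    have e8 : (E - u + v) ^ 2 ≤ 2 * E ^ 2 + 4 * u ^ 2 + 4 * v ^ 2 := by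
      nlinarith [sq_nonneg (E + u - v), sq_nonneg (u + v)]
    calc (E - u + v) ^ 2 ≤ 2 * E ^ 2 + 4 * u ^ 2 + 4 * v ^ 2 := e8
      _ ≤ 2 * E ^ 2 + 4 * (2 * L * (Sp_s z x H : ℝ)) ^ 2 + 4 * (2 * L * (H : ℝ) * (5 * (N : ℝ) ^ (-δ))) ^ 2 := by linarith
      _ = _ := by ring
  refine (sum_le_sum hpt).trans ?_
  rw [sum_add_distrib, sum_add_distrib, ← mul_sum, ← mul_sum, sum_const, nsmul_eq_mul]
  have b1 := hWD d c hd hdB
  have b2 := Sp_sum z H (9 * N) (Icc (N / 8) (8 * N)) hz0 (fun x hx => by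
    rw [mem_Icc] at hx
    omega)
  have b3 : (((Icc (N / 8) (8 * N)).card : ℕ) : ℝ) ≤ 9 * N := by
    have : (Icc (N / 8) (8 * N)).card ≤ 9 * N := by
      rw [Nat.card_Icc]
      omega
    exact_mod_cast this
  have b4 : (H : ℝ) ^ 2 * (((9 * N : ℕ) : ℝ) / z) ≤ 9 * (N * (H : ℝ) ^ 2) * (N : ℝ) ^ (-δ) := by
    have h7 : 1 / (z : ℝ) ≤ (N : ℝ) ^ (-δ) := by
      rw [Real.rpow_neg hN0.le, ← one_div]
      exact one_div_le_one_div_of_le (Real.rpow_pos_of_pos hN0 _) hz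
    have h8 : (H : ℝ) ^ 2 * (((9 * N : ℕ) : ℝ) / z) = 9 * (N * (H : ℝ) ^ 2) * (1 / z) := by
      push_cast
      ring
    rw [h8]
    exact mul_le_mul_of_nonneg_left h7 (by positivity)
  have b5 : (((Icc (N / 8) (8 * N)).card : ℕ) : ℝ) * (16 * L ^ 2 * (H : ℝ) ^ 2 * (5 * (N : ℝ) ^ (-δ)) ^ 2) ≤
      3600 * L ^ 2 * (N * (H : ℝ) ^ 2) * (N : ℝ) ^ (-δ) := by
    have h1 : (((Icc (N / 8) (8 * N)).card : ℕ) : ℝ) * (16 * L ^ 2 * (H : ℝ) ^ 2 * (5 * (N : ℝ) ^ (-δ)) ^ 2) ≤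
        9 * N * (16 * L ^ 2 * (H : ℝ) ^ 2 * (5 * (N : ℝ) ^ (-δ)) ^ 2) :=
      mul_le_mul_of_nonneg_right b3 (by positivity)
    refine h1.trans ?_
    have h2 : 9 * (N : ℝ) * (16 * L ^ 2 * (H : ℝ) ^ 2 * (5 * (N : ℝ) ^ (-δ)) ^ 2) =
        3600 * L ^ 2 * (N * (H : ℝ) ^ 2) * (N : ℝ) ^ (-δ) * (N : ℝ) ^ (-δ) := by ring
    rw [h2]
    exact mul_le_of_le_one_right (by positivity) hNN1
  have b6 : 16 * L ^ 2 * ∑ x ∈ Icc (N / 8) (8 * N), (Sp_s z x H : ℝ) ^ 2 ≤ 144 * L ^ 2 * (N * (H : ℝ) ^ 2) * (N : ℝ) ^ (-δ) := by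
    have := mul_le_mul_of_nonneg_left (b2.trans b4) (show 0 ≤ 16 * L ^ 2 by positivity)
    linarith
  have b7 : (N : ℝ) ^ (-δ) ≤ 1 / (7488 * L ^ (A + 2)) := by
    rw [Real.rpow_neg hN0.le, ← one_div]
    exact one_div_le_one_div_of_le (by positivity) hL1
  have b8 : 3744 * L ^ 2 * (N * (H : ℝ) ^ 2) * (N : ℝ) ^ (-δ) ≤ N * (H : ℝ) ^ 2 / (2 * L ^ A) := by
    refine (mul_le_mul_of_nonneg_left b7 (by positivity)).trans (le_of_eq ?_)
    rw [pow_add]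
    field_simp
    ring
  have b9 : 2 * (N * (H : ℝ) ^ 2 / L ^ (A + 1)) ≤ N * (H : ℝ) ^ 2 / (2 * L ^ A) := by
    rw [pow_succ L A, mul_div_assoc', div_le_div_iff₀ (by positivity) (by positivity)]
    have h1 : 0 ≤ N * (H : ℝ) ^ 2 * L ^ A := by positivity
    have h2 := mul_le_mul_of_nonneg_left hL4 h1
    calc 2 * (N * (H : ℝ) ^ 2) * (2 * L ^ A) = N * (H : ℝ) ^ 2 * L ^ A * 4 := by ring
      _ ≤ N * (H : ℝ) ^ 2 * L ^ A * L := h2
      _ = N * (H : ℝ) ^ 2 * (L ^ A * L) := by ring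
  have b10 : N * (H : ℝ) ^ 2 / L ^ A = N * (H : ℝ) ^ 2 / (2 * L ^ A) + N * (H : ℝ) ^ 2 / (2 * L ^ A) := by
    field_simp
    norm_num
  have b11 : 0 ≤ (N * (H : ℝ) ^ 2) * (N : ℝ) ^ (-δ) := by positivity
  rw [b10]
  have b12 : 144 * L ^ 2 * (N * (H : ℝ) ^ 2) * (N : ℝ) ^ (-δ) + 3600 * L ^ 2 * (N * (H : ℝ) ^ 2) * (N : ℝ) ^ (-δ) =
      3744 * L ^ 2 * (N * (H : ℝ) ^ 2) * (N : ℝ) ^ (-δ) := by ring
  linarith

/-- scaling -/
theorem wdx_smul (a : ℝ) {N H H1 A B : ℕ} {Y : ℕ → ℝ} (ha : a ^ 2 ≤ Real.log N) (hL : 0 < Real.log N)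
    (hW : WDx N H (A + 1) B Y (gam Y H1)) : WDx N H A B (fun n => a * Y n) (gam (fun n => a * Y n) H1) := by
  intro d c hd hdB
  have h1 := hW d c hd hdB
  have hg : ∀ x, gam (fun n => a * Y n) H1 x = a * gam Y H1 x := by
    intro x
    unfold gam
    rw [← mul_sum, mul_div_assoc]
  have h2 : ∑ x ∈ Icc (N / 8) (8 * N), ((∑ n ∈ (Ioc x (x + H)).filter (fun n => n % d = c % d), a * Y n)
      - (if Nat.Coprime c d then (H : ℝ) * gam (fun n => a * Y n) H1 x / d.totient else 0)) ^ 2 =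
      a ^ 2 * ∑ x ∈ Icc (N / 8) (8 * N), ((∑ n ∈ (Ioc x (x + H)).filter (fun n => n % d = c % d), Y n)
      - (if Nat.Coprime c d then (H : ℝ) * gam Y H1 x / d.totient else 0)) ^ 2 := by
    rw [mul_sum]
    refine sum_congr rfl fun x _ => ?_
    rw [hg, ← mul_sum]
    split_ifs <;> ring
  show ∑ x ∈ Icc (N / 8) (8 * N), _ ≤ _
  rw [h2]
  refine (mul_le_mul_of_nonneg_left h1 (sq_nonneg a)).trans ?_
  rw [pow_succ (Real.log N) A, ← div_div, ← mul_div_assoc, div_le_iff₀ hL, mul_comm]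
  exact mul_le_mul_of_nonneg_left ha (by positivity)

end Pool.Agent.H76.BW
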