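import Pool.Agent.H43.PX.Defs
import Pool.Agent.H46.TPQ.Egm
import Pool.Agent.H76.BW.Sp

/-!
# BW Id: Ramaré's identity for `Bx` and the bounds (MP_967f73_nt, project PX)
-/

set_option autoImplicit false

namespace Pool.Agent.H76.BW

open Finset
open Pool.Agent.H43.MP (blk Hn idx Rn)
open Pool.Agent.H53.MID (Fp)
open Pool.Agent.H76.TP (yN zz rg nu PY)
open Pool.Agent.H91.TQ (om)
open Pool.Agent.H31.EQ (Gs gam WDx sqz)
open Pool.Agent.H46.TPQ (om_pow rg_zero_or_one gs_eq_sum rg_div om_cof om_card)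
open Pool.Agent.H43.PX (Bx LevX)

/-- the cofactor weights of `Bx/4` -/
noncomputable def bB (y J J1 k : ℕ) : ℝ :=
  rg y k * ((1 - ((min (om y J J1 k) 5 : ℕ) : ℝ)) / (4 * (1 + (nu y J k : ℝ))))

theorem zz_zero (y : ℕ) : zz y 0 = y := by
  unfold zz
  rw [pow_zero, one_mul]

theorem nu_eq_om (y J k : ℕ) : nu y J k = om y 0 J k := by
  unfold nu om
  rw [zz_zero]

theorem bB_abs (y J J1 k : ℕ) : |bB y J J1 k| ≤ 1 := by
  unfold bB
  have h1 : |(1 : ℝ) - ((min (om y J J1 k) 5 : ℕ) : ℝ)| ≤ 4 := by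
    have h2 : ((min (om y J J1 k) 5 : ℕ) : ℝ) ≤ 5 := by exact_mod_cast min_le_right _ _
    have h3 : (0 : ℝ) ≤ ((min (om y J J1 k) 5 : ℕ) : ℝ) := Nat.cast_nonneg _
    rw [abs_le]
    constructor <;> linarith
  have hn : (0 : ℝ) ≤ nu y J k := Nat.cast_nonneg _
  have h4 : |(1 - ((min (om y J J1 k) 5 : ℕ) : ℝ)) / (4 * (1 + (nu y J k : ℝ)))| ≤ 1 := by
    rw [abs_div, abs_of_pos (show (0 : ℝ) < 4 * (1 + (nu y J k : ℝ)) by positivity), div_le_one (by positivity)]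
    linarith
  rcases rg_zero_or_one y k with h | h <;> rw [h]
  · norm_num
  · rw [one_mul]
    exact h4

/-- `om` does not see the primes `≤ z` -/
theorem om_small {y J J1 m p : ℕ} (hm : 1 ≤ m) (hp : p.Prime) (hz : p ≤ zz y J) (hpm : p ∣ m) :
    om y J J1 (m / p) = om y J J1 m := by
  obtain ⟨k, rfl⟩ := hpm
  have hk : 1 ≤ k := by
    rcases Nat.eq_zero_or_pos k with h | h
    · rw [h] at hm
      simp at hm
    · exact h
  rw [Nat.mul_div_cancel_left k hp.pos]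
  have e1 : (p * k).primeFactors = insert p k.primeFactors := by
    rw [Nat.primeFactors_mul hp.ne_zero (by omega), Nat.Prime.primeFactors hp, singleton_union]
  unfold om
  rw [e1, Finset.filter_insert, if_neg (by omega)]

theorem gs_bx (y J J1 m : ℕ) (hm : 1 ≤ m) (hom : om y J J1 m ≤ 5) (hsq : ¬ sqz (2 ^ 0 * y) m) :
    4 * Gs (fun _ => bB y J J1) y 0 J m = Bx y J J1 m := by
  rw [gs_eq_sum _ y 0 J m (Nat.zero_le _)]
  have h1 : ∀ p ∈ (PY (zz y 0) (zz y J)).filter (fun p => p ∣ m),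
      bB y J J1 (m / p) = rg y m * ((1 - (om y J J1 m : ℝ)) / (4 * (nu y J m : ℝ))) := by
    intro p hp
    unfold PY at hp
    rw [mem_filter, mem_filter, mem_Ioc] at hp
    obtain ⟨⟨⟨h1, h2⟩, h3⟩, h4⟩ := hp
    have hyp : y < p := by
      rw [zz_zero] at h1
      exact h1
    have h5 : ¬ p ^ 2 ∣ m := fun h5 => hsq ⟨p, h3, by rw [pow_zero, one_mul]; exact hyp, h5⟩
    have h6 := om_cof hm h3 h1 h2 h4 h5
    rw [← nu_eq_om, ← nu_eq_om] at h6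
    have h7 := om_small (J1 := J1) hm h3 h2 h4
    unfold bB
    rw [rg_div h3 hyp h4, ← h6, h7, min_eq_left hom]
    push_cast
    rfl
  rw [sum_congr rfl h1, sum_const, om_card hm, nsmul_eq_mul, ← nu_eq_om]
  unfold Bx
  split_ifs with h
  · rw [h]
    simp
  · have : (nu y J m : ℝ) ≠ 0 := by
      exact_mod_cast h
    field_simp

theorem gs_bound (y J J1 m : ℕ) (hm : 1 ≤ m) : |Gs (fun _ => bB y J J1) y 0 J m| ≤ nu y J m := by
  rw [gs_eq_sum _ y 0 J m (Nat.zero_le _), nu_eq_om, ← om_card hm]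
  refine (abs_sum_le_sum_abs _ _).trans ?_
  refine (sum_le_sum fun p _ => bB_abs y J J1 (m / p)).trans ?_
  rw [sum_const, nsmul_eq_mul, mul_one]

theorem bx_bound (y J J1 m : ℕ) (hom : om y J J1 m ≤ 5) : |Bx y J J1 m| ≤ 4 := by
  unfold Bx
  split_ifs with h
  · norm_num
  · have h2 : (om y J J1 m : ℝ) ≤ 5 := by exact_mod_cast hom
    have h3 : (0 : ℝ) ≤ om y J J1 m := Nat.cast_nonneg _
    rcases rg_zero_or_one y m with h | h <;> rw [h]
    · norm_num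
    · rw [one_mul, abs_le]
      constructor <;> linarith

/-- sizes -/
theorem bw_sizes (e1 : ℝ) (he1 : 0 < e1) (he2 : e1 ≤ 1 / 1000) (B : ℕ) : ∃ N0 : ℕ, ∀ N : ℕ, N0 ≤ N →
    (N : ℝ) ^ (e1 / 2) ≤ yN e1 N ∧ Real.log N ^ B < yN e1 N ∧ 16 ≤ Real.log N ∧
    ∀ J J1 : ℕ, LevX N (yN e1 N) J J1 → ∀ m : ℕ, 1 ≤ m → m ≤ 16 * N →
      om (yN e1 N) J J1 m ≤ 5 ∧ 4 * (nu (yN e1 N) J m : ℝ) ≤ Real.log N := by
  obtain ⟨N1, hN1⟩ := Pool.Agent.H76.GB.log_pow_le (e1 / 2) 2 (by linarith) (by norm_num) B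
  obtain ⟨N2, hN2⟩ := Pool.Agent.H80.LV.log_ge (max 16 (16 / e1))
  obtain ⟨N3, hN3⟩ := Pool.Agent.H76.GB.log_pow_le (1 / 10) 17 (by norm_num) (by norm_num) 0
  refine ⟨max (max N1 N2) (max N3 16), fun N hN => ?_⟩
  simp only [max_le_iff] at hN
  obtain ⟨⟨g1, g2⟩, g3, g4⟩ := hN
  have k1 := hN1 N g1
  have k2 := hN2 N g2
  have k3 := hN3 N g3
  rw [pow_zero, mul_one] at k3
  have hNpos : (0 : ℝ) < N := by exact_mod_cast (by omega : 0 < N)
  have hNone : (1 : ℝ) ≤ N := by exact_mod_cast (by omega : 1 ≤ N)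
  have hN16 : (16 : ℝ) ≤ N := by exact_mod_cast g4
  have hL16 : 16 ≤ Real.log N := (le_max_left _ _).trans k2
  have hLe : 16 / e1 ≤ Real.log N := (le_max_right _ _).trans k2
  have hLB : 1 ≤ Real.log N ^ B := one_le_pow₀ (by linarith)
  have hx1 : (1 : ℝ) ≤ (N : ℝ) ^ (e1 / 2) := Real.one_le_rpow hNone (by linarith)
  have hx2 : (N : ℝ) ^ e1 = (N : ℝ) ^ (e1 / 2) * (N : ℝ) ^ (e1 / 2) := by
    rw [← Real.rpow_add hNpos]
    congr 1
    ring
  have hfl : (N : ℝ) ^ e1 < yN e1 N + 1 := Nat.lt_floor_add_one _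
  have hx3 : 2 ≤ (N : ℝ) ^ (e1 / 2) := by nlinarith
  have hy1 : (N : ℝ) ^ (e1 / 2) ≤ yN e1 N := by nlinarith
  have hy2 : Real.log N ^ B < yN e1 N := by nlinarith
  refine ⟨hy1, hy2, hL16, fun J J1 hL m hm hm2 => ⟨?_, ?_⟩⟩
  · by_contra hcon
    obtain ⟨-, l2, -, -, -⟩ := hL
    have hz0 : (0 : ℝ) < zz (yN e1 N) J := lt_of_lt_of_le (by positivity) l2
    have hzp : 1 ≤ zz (yN e1 N) J := by exact_mod_cast hz0
    have t1 := om_pow (yN e1 N) J J1 m hm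
    have t2 : zz (yN e1 N) J ^ 6 ≤ m := (Nat.pow_le_pow_right hzp (by omega)).trans t1
    have t3 : (zz (yN e1 N) J : ℝ) ^ 6 ≤ m := by exact_mod_cast t2
    have t4 : ((N : ℝ) ^ (1898 / 10000 : ℝ)) ^ 6 ≤ (zz (yN e1 N) J : ℝ) ^ 6 := pow_le_pow_left₀ (by positivity) l2 6
    have t5 : (m : ℝ) ≤ 16 * N := by exact_mod_cast hm2
    have t6 : (N : ℝ) ^ (1 / 10 : ℝ) * N ≤ ((N : ℝ) ^ (1898 / 10000 : ℝ)) ^ 6 := by
      rw [← Real.rpow_natCast, ← Real.rpow_mul hNpos.le]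
      conv_lhs => rw [← Real.rpow_one (N : ℝ)]
      rw [← Real.rpow_mul hNpos.le, ← Real.rpow_add hNpos]
      exact Real.rpow_le_rpow_of_exponent_le hNone (by norm_num)
    have t7 : 17 * (N : ℝ) ≤ (N : ℝ) ^ (1 / 10 : ℝ) * N := mul_le_mul_of_nonneg_right k3 hNpos.le
    linarith
  · have t1 := om_pow (yN e1 N) 0 J m hm
    rw [zz_zero, ← nu_eq_om] at t1
    set t := nu (yN e1 N) J m with ht
    have t2 : (yN e1 N : ℝ) ^ t ≤ 16 * N := by
      have : ((yN e1 N ^ t : ℕ) : ℝ) ≤ ((16 * N : ℕ) : ℝ) := by exact_mod_cast t1.trans hm2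
      push_cast at this
      exact this
    have t3 : ((N : ℝ) ^ (e1 / 2)) ^ t ≤ (N : ℝ) ^ (2 : ℝ) := by
      calc ((N : ℝ) ^ (e1 / 2)) ^ t ≤ (yN e1 N : ℝ) ^ t := pow_le_pow_left₀ (by positivity) hy1 t
        _ ≤ 16 * N := t2
        _ ≤ N * N := mul_le_mul_of_nonneg_right hN16 hNpos.le
        _ = (N : ℝ) ^ (2 : ℝ) := by
          rw [show (2 : ℝ) = ((2 : ℕ) : ℝ) by norm_num, Real.rpow_natCast]
          ring
    rw [← Real.rpow_natCast, ← Real.rpow_mul hNpos.le, Real.rpow_le_rpow_left_iff (by linarith)] at t3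
    have t4 : (t : ℝ) * e1 ≤ 4 := by linarith
    have t5 : (t : ℝ) ≤ 4 / e1 := by rwa [le_div_iff₀ he1]
    calc 4 * (t : ℝ) ≤ 4 * (4 / e1) := by linarith
      _ = 16 / e1 := by ring
      _ ≤ Real.log N := hLe

end Pool.Agent.H76.BW
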